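import Pool.Agent.Helper73.SP.T4a

/-!
# Project SP: the two-variable inequality (T4)

`P = r ^ 2` is the squared modulus at `w`, `p` the one at `w / 2`, `G` the second moment of the
conditional expectation given one product, `B = 1 - A` where `A` is the second moment given twelve labels.
-/

set_option autoImplicit false

namespace Pool.Agent.Helper73.SP

/-- linear lower bounds of `G` -/
theorem G_lin {p r G : ℝ} (h3 : 2 * p ^ 2 - 1 ≤ r ^ 2) (hq : p ^ 2 ≤ G)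
    (hT2 : p ^ 2 ≤ r → 2 * (r - p ^ 2) ^ 2 ≤ (G - p ^ 2) * (1 + r ^ 2 - 2 * p ^ 2))
    {t : ℝ} (ht : 0 ≤ t) :
    p ^ 2 * (1 - 2 * t) ^ 2 + 4 * t * r - 2 * t ^ 2 * (1 + r ^ 2) ≤ G := by
  have hD : 0 ≤ 1 + r ^ 2 - 2 * p ^ 2 := by linarith
  rcases le_total (p ^ 2) r with h | h
  · have h1 := hT2 h
    rcases hD.eq_or_lt with h0 | h0
    · rw [← h0, mul_zero] at h1
      have h2 : r = p ^ 2 := by nlinarith [sq_nonneg (r - p ^ 2)]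
      nlinarith [mul_nonneg ht ht]
    · have h2 : (4 * t * (r - p ^ 2) - 2 * t ^ 2 * (1 + r ^ 2 - 2 * p ^ 2)) *
          (1 + r ^ 2 - 2 * p ^ 2) ≤ (G - p ^ 2) * (1 + r ^ 2 - 2 * p ^ 2) := by
        nlinarith [sq_nonneg ((r - p ^ 2) - t * (1 + r ^ 2 - 2 * p ^ 2))]
      have h3 := le_of_mul_le_mul_right h2 h0
      nlinarith
  · have h1 : 0 ≤ t * (p ^ 2 - r) := mul_nonneg ht (by linarith)
    have h2 : 0 ≤ t ^ 2 * (1 + r ^ 2 - 2 * p ^ 2) := mul_nonneg (sq_nonneg t) hD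
    nlinarith

/-- linear upper bounds of `B` -/
theorem B_lin {u g B : ℝ} (hu : 0 ≤ u) (hg : 0 ≤ g) (hBu : B ≤ u)
    (hB : B * (u + 11 / 2 * g) ≤ u * (u + 11 / 2 * g) - 12 * g ^ 2) (b : ℝ) :
    B ≤ u * (1 + 12 * b ^ 2) - (24 * b - 66 * b ^ 2) * g := by
  have hM : 0 ≤ u + 11 / 2 * g := by positivity
  rcases hM.eq_or_lt with h0 | h0
  · have h1 : u = 0 := by linarith
    have h2 : g = 0 := by linarith
    subst h1 h2
    linarith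
  · have h1 : B * (u + 11 / 2 * g) ≤
        (u * (1 + 12 * b ^ 2) - (24 * b - 66 * b ^ 2) * g) * (u + 11 / 2 * g) := by
      nlinarith [sq_nonneg (g - b * (u + 11 / 2 * g))]
    exact le_of_mul_le_mul_right h1 h0

theorem corner1 {p r G B : ℝ} (hp : 15 / 16 ≤ p) (hp1 : p ≤ 1) (hr0 : 0 ≤ r)
    (hrp : r ≤ p ^ 2) (hq : p ^ 2 ≤ G)
    (hB : B ≤ (1 - r ^ 2) * (91 / 75) - 152 / 75 * (G - r ^ 2)) :
    0 ≤ (1 - r ^ 2) * (-(33 / 100) + 63 / 50 * (1 - r ^ 2)) +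
      (1 - p) * (231 / 50 - 63 / 25 * (1 - p)) - 4 * B + B ^ 2 := by
  obtain ⟨v, rfl⟩ : ∃ v, p = 1 - v := ⟨1 - p, by ring⟩
  have hv0 : 0 ≤ v := by linarith
  have hv1 : v ≤ 1 / 16 := by linarith
  have h1 : r ^ 2 ≤ (1 - v) ^ 4 := by
    calc r ^ 2 ≤ ((1 - v) ^ 2) ^ 2 := pow_le_pow_left₀ hr0 hrp 2
      _ = (1 - v) ^ 4 := by ring
  set u := 1 - r ^ 2 with hu
  have hu1 : v * (4 - 6 * v + 4 * v ^ 2 - v ^ 3) ≤ u := by
    have e : (1 - v) ^ 4 = 1 - v * (4 - 6 * v + 4 * v ^ 2 - v ^ 3) := by ring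
    rw [e] at h1
    rw [hu]
    linarith
  have hr2 : r ^ 2 = 1 - u := by rw [hu]; ring
  rw [hr2] at hB
  have hw : 29 / 8 ≤ 4 - 6 * v + 4 * v ^ 2 - v ^ 3 := by nlinarith [sq_nonneg v, mul_nonneg hv0 (sq_nonneg v)]
  have hu2 : v * (29 / 8) ≤ u := (mul_le_mul_of_nonneg_left hw hv0).trans hu1
  have hu3 : (v * (29 / 8)) ^ 2 ≤ u ^ 2 := pow_le_pow_left₀ (by positivity) hu2 2
  have h5 : B ≤ -(61 / 75) * u + 152 / 75 * (2 * v - v ^ 2) := by nlinarith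
  have h6 : 4 * v - 6 * v ^ 2 ≤ v * (4 - 6 * v + 4 * v ^ 2 - v ^ 3) := by
    nlinarith [mul_nonneg (mul_nonneg hv0 (sq_nonneg v)) (show (0:ℝ) ≤ 4 - v by linarith)]
  nlinarith [sq_nonneg B, sq_nonneg v]

theorem corner2 {p r G B : ℝ} (hp : 15 / 16 ≤ p) (hp1 : p ≤ 1) (hr1 : r ≤ 1)
    (hrp : p ^ 2 ≤ r)
    (hT2 : 2 * (r - p ^ 2) ^ 2 ≤ (G - p ^ 2) * (1 + r ^ 2 - 2 * p ^ 2)) (hGP : r ^ 2 ≤ G)
    (hq : p ^ 2 ≤ G)
    (hB : B ≤ (1 - r ^ 2) * (91 / 75) - 152 / 75 * (G - r ^ 2)) :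
    0 ≤ (1 - r ^ 2) * (-(33 / 100) + 63 / 50 * (1 - r ^ 2)) +
      (1 - p) * (231 / 50 - 63 / 25 * (1 - p)) - 4 * B + B ^ 2 := by
  obtain ⟨v, rfl⟩ : ∃ v, p = 1 - v := ⟨1 - p, by ring⟩
  obtain ⟨o, rfl⟩ : ∃ o, r = 1 - o := ⟨1 - r, by ring⟩
  have hv0 : 0 ≤ v := by linarith
  have hv1 : v ≤ 1 / 16 := by linarith
  have ho0 : 0 ≤ o := by linarith
  obtain ⟨x, hx⟩ : ∃ x, x = 1 - o - (1 - v) ^ 2 := ⟨_, rfl⟩
  have hx0 : 0 ≤ x := by rw [hx]; linarith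
  have hox : o + x = 2 * v - v ^ 2 := by rw [hx]; ring
  have hox1 : o + x ≤ 1 / 8 := by rw [hox]; nlinarith
  have hq2 : (1 - v) ^ 2 = 1 - o - x := by rw [hx]; ring
  rw [hq2] at hT2 hq
  -- the deficit
  obtain ⟨h, hh⟩ : ∃ h, h = o * (1 - o) - (G - (1 - o) ^ 2) := ⟨_, rfl⟩
  have hG : G = o * (1 - o) - h + (1 - o) ^ 2 := by rw [hh]; ring
  rw [hG] at hT2 hq hB
  have hdef : h * (o ^ 2 + 2 * x) ≤ x * o ^ 2 := by nlinarith
  have hhx : h ≤ x := by nlinarith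
  have key : 608 / 75 * h ≤ 23 / 10 * x + 9 / 10 * o ^ 2 := by
    have hD : 0 ≤ o ^ 2 + 2 * x := by positivity
    rcases hD.eq_or_lt with h0 | h0
    · have : x = 0 := by nlinarith [sq_nonneg o]
      subst this
      nlinarith [sq_nonneg o]
    · have h1 : (608 / 75 * h) * (o ^ 2 + 2 * x) ≤
          (23 / 10 * x + 9 / 10 * o ^ 2) * (o ^ 2 + 2 * x) := by
        nlinarith [sq_nonneg (x - 601 / 1380 * o ^ 2), sq_nonneg (o ^ 2)]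
      exact le_of_mul_le_mul_right h1 h0
  have hv2 : v ^ 2 ≤ 1 / 30 * (o + x) := by
    rw [hox]
    nlinarith
  have hB' : B ≤ 91 / 75 * (2 * o - o ^ 2) - 152 / 75 * (o * (1 - o) - h) := by nlinarith
  have ho1 : o ≤ 1 / 8 := by linarith
  have hsq : 0 ≤ o ^ 2 * (1 / 2 - o) := mul_nonneg (sq_nonneg o) (by linarith)
  have e1 : (1 - (1 - v)) * (231 / 50 - 63 / 25 * (1 - (1 - v))) =
      231 / 100 * (o + x) - 21 / 100 * v ^ 2 := by rw [hox]; ring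
  have e2 : 1 - (1 - o) ^ 2 = 2 * o - o ^ 2 := by ring
  rw [e1, e2]
  have hq4 : 0 ≤ o ^ 2 * (o ^ 2) := by positivity
  have h7 : o ^ 2 * (504 / 100 * o) ≤ o ^ 2 * (63 / 100) :=
    mul_le_mul_of_nonneg_left (by linarith) (sq_nonneg o)
  nlinarith [sq_nonneg B]

/-- **(T4).** -/
theorem T4 {p r G B : ℝ} (hp0 : 0 ≤ p) (hp1 : p ≤ 1) (hr0 : 0 ≤ r) (hr1 : r ≤ 1)
    (h3 : 2 * p ^ 2 - 1 ≤ r ^ 2) (hGP : r ^ 2 ≤ G) (hq : p ^ 2 ≤ G)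
    (hT2 : p ^ 2 ≤ r → 2 * (r - p ^ 2) ^ 2 ≤ (G - p ^ 2) * (1 + r ^ 2 - 2 * p ^ 2))
    (hB0 : 0 ≤ B) (hBu : B ≤ 1 - r ^ 2)
    (hB : B * ((1 - r ^ 2) + 11 / 2 * (G - r ^ 2)) ≤
      (1 - r ^ 2) * ((1 - r ^ 2) + 11 / 2 * (G - r ^ 2)) - 12 * (G - r ^ 2) ^ 2) :
    B * (4 - B) + (1 - r ^ 2) * (21 / 20 + 63 / 50 * r ^ 2) -
      2 * ((1 - p) * (21 / 20 + 63 / 50 * p)) ≤ 99 / 50 * (1 - r ^ 2) := by
  have hu0 : 0 ≤ 1 - r ^ 2 := by nlinarith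
  have hg0 : 0 ≤ G - r ^ 2 := by linarith
  rcases gd_of hp0 hp1 hr0 hr1 h3 with ⟨l, m, hbe, hkb, hev⟩ | ⟨hp, hr⟩
  · have hl : (0 : ℝ) ≤ (l : ℝ) / 16 := by positivity
    have h1 := G_lin h3 hq hT2 hl
    have h2 := B_lin hu0 hg0 hBu hB ((m : ℝ) / 30)
    have hbe' : (0 : ℝ) ≤ 720 * (m : ℝ) - 66 * (m : ℝ) ^ 2 := by
      have : (0 : ℝ) ≤ ((be m : ℤ) : ℝ) := by exact_mod_cast hbe
      simpa [be] using this
    have h3' : B ≤ kb l m p r / 230400 := by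
      have e1 : kb l m p r / 230400 = (1 - r ^ 2) * (1 + 12 * ((m : ℝ) / 30) ^ 2) -
          (24 * ((m : ℝ) / 30) - 66 * ((m : ℝ) / 30) ^ 2) *
          ((p ^ 2 * (1 - 2 * ((l : ℝ) / 16)) ^ 2 + 4 * ((l : ℝ) / 16) * r -
            2 * ((l : ℝ) / 16) ^ 2 * (1 + r ^ 2)) - r ^ 2) := by
        unfold kb c0 c1 c2 cp al be
        push_cast
        ring
      rw [e1]
      have h4 : 0 ≤ 24 * ((m : ℝ) / 30) - 66 * ((m : ℝ) / 30) ^ 2 := by nlinarith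
      have h5 := mul_le_mul_of_nonneg_left h1 h4
      linarith
    have hk3 : kb l m p r / 230400 ≤ 3 := by
      rw [div_le_iff₀ (by norm_num)]; linarith
    rw [ev_cf] at hev
    set X := kb l m p r / 230400 with hX
    have hkX : kb l m p r = 230400 * X := by rw [hX]; ring
    rw [hkX] at hev
    have hB1 : B ≤ 1 := by nlinarith [sq_nonneg r]
    have h6 : 0 ≤ (X - B) * (4 - B - X) := mul_nonneg (by linarith) (by linarith)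
    nlinarith
  · have hB2 := B_lin hu0 hg0 hBu hB (2 / 15)
    have hB3 : B ≤ (1 - r ^ 2) * (91 / 75) - 152 / 75 * (G - r ^ 2) := by
      refine hB2.trans (le_of_eq ?_)
      ring
    rcases le_total r (p ^ 2) with h | h
    · have := corner1 hp hp1 hr0 h hq hB3
      nlinarith
    · have := corner2 hp hp1 hr1 h (hT2 h) hGP hq hB3
      nlinarith

end Pool.Agent.Helper73.SP
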