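import Mathlib

/-!
# Project SP: the two-variable inequality (T4)

A box tree with integer data is checked by the kernel; the corner `p, r → 1` is done by hand.
-/

set_option autoImplicit false

namespace Pool.Agent.Helper73.SP

/-! ### lower bounds of polynomials on the unit square -/

/-- evaluation -/
def ev : List ℤ → ℝ → ℝ
  | [], _ => 0
  | a :: l, s => a + s * ev l s

/-- evaluation of a polynomial whose coefficients are polynomials -/
def ev2 : List (List ℤ) → ℝ → ℝ → ℝ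
  | [], _, _ => 0
  | f :: l, s, t => ev f t + s * ev2 l s t

/-- lower bound on `[0, 1]` -/
def lb : List ℤ → ℤ
  | [] => 0
  | a :: l => a + min 0 (lb l)

/-- lower bound on the unit square -/
def lb2 : List (List ℤ) → ℤ
  | [] => 0
  | f :: l => lb f + min 0 (lb2 l)

theorem mul_lb {s x y : ℝ} (hs0 : 0 ≤ s) (hs1 : s ≤ 1) (h : x ≤ y) : min 0 x ≤ s * y := by
  rcases le_total 0 x with h0 | h0
  · rw [min_eq_left h0]
    exact mul_nonneg hs0 (h0.trans h)
  · rw [min_eq_right h0]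
    nlinarith [mul_nonneg hs0 (sub_nonneg.2 h), mul_nonneg (sub_nonneg.2 hs1) (neg_nonneg.2 h0)]

theorem lb_le (l : List ℤ) {s : ℝ} (hs0 : 0 ≤ s) (hs1 : s ≤ 1) : (lb l : ℝ) ≤ ev l s := by
  induction l with
  | nil => simp [lb, ev]
  | cons a l ih =>
    have := mul_lb hs0 hs1 ih
    simp only [lb, ev]
    push_cast
    linarith

theorem lb2_le (l : List (List ℤ)) {s t : ℝ} (hs0 : 0 ≤ s) (hs1 : s ≤ 1) (ht0 : 0 ≤ t)
    (ht1 : t ≤ 1) : (lb2 l : ℝ) ≤ ev2 l s t := by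
  induction l with
  | nil => simp [lb2, ev2]
  | cons f l ih =>
    have h1 := mul_lb hs0 hs1 ih
    have h2 := lb_le f ht0 ht1
    simp only [lb2, ev2]
    push_cast
    linarith

/-! ### substitution of `x = (a + w s) / 128` -/

/-- scalar multiple -/
def sm (k : ℤ) : List ℤ → List ℤ
  | [] => []
  | a :: l => k * a :: sm k l

/-- sum -/
def ad : List ℤ → List ℤ → List ℤ
  | [], g => g
  | a :: l, [] => a :: l
  | a :: l, b :: m => (a + b) :: ad l m

theorem ev_sm (k : ℤ) (l : List ℤ) (s : ℝ) : ev (sm k l) s = k * ev l s := by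
  induction l with
  | nil => simp [sm, ev]
  | cons a l ih => simp only [sm, ev, ih]; push_cast; ring

theorem ev_ad (l m : List ℤ) (s : ℝ) : ev (ad l m) s = ev l s + ev m s := by
  induction l generalizing m with
  | nil => simp [ad, ev]
  | cons a l ih =>
    cases m with
    | nil => simp [ad, ev]
    | cons b m => simp only [ad, ev, ih]; push_cast; ring

/-- `(a + w s) R + w c` -/
def ml (a w : ℤ) : ℤ → List ℤ → List ℤ
  | c, [] => [w * c]
  | c, r :: l => (a * r + w * c) :: ml a w r l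

theorem ev_ml (a w : ℤ) (l : List ℤ) (c : ℤ) (s : ℝ) :
    ev (ml a w c l) s = (a + w * s) * ev l s + w * c := by
  induction l generalizing c with
  | nil => simp [ml, ev]
  | cons r l ih => simp only [ml, ev, ih]; push_cast; ring

/-- coefficients in `s` of `128 ^ n f ((a + w s) / 128)`, `n` the length -/
def sh (a w : ℤ) : List ℤ → List ℤ
  | [] => []
  | c :: l => ad [c * 128 ^ (l.length + 1)] (ml a w 0 (sh a w l))

theorem ev_sh (a w : ℤ) (l : List ℤ) {s x : ℝ} (hx : a + w * s = 128 * x) :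
    ev (sh a w l) s = 128 ^ l.length * ev l x := by
  induction l with
  | nil => simp [sh, ev]
  | cons c l ih =>
    simp only [sh, ev_ad, ev_ml, ih, ev, List.length_cons]
    rw [hx]
    push_cast
    ring

/-- `(a + w s) R + w f` for lists of polynomials -/
def ml2 (a w : ℤ) : List ℤ → List (List ℤ) → List (List ℤ)
  | c, [] => [sm w c]
  | c, r :: l => ad (sm a r) (sm w c) :: ml2 a w r l

theorem ev_ml2 (a w : ℤ) (l : List (List ℤ)) (c : List ℤ) (s t : ℝ) :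
    ev2 (ml2 a w c l) s t = (a + w * s) * ev2 l s t + w * ev c t := by
  induction l generalizing c with
  | nil => simp [ml2, ev2, ev_sm]
  | cons r l ih => simp only [ml2, ev2, ih, ev_ad, ev_sm]; ring

/-- add to the head -/
def ah (f : List ℤ) : List (List ℤ) → List (List ℤ)
  | [] => [f]
  | g :: l => ad f g :: l

theorem ev_ah (f : List ℤ) (l : List (List ℤ)) (s t : ℝ) :
    ev2 (ah f l) s t = ev f t + ev2 l s t := by
  cases l with
  | nil => simp [ah, ev2]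
  | cons g l => simp only [ah, ev2, ev_ad]; ring

/-- the outer substitution -/
def sh2 (a w : ℤ) : List (List ℤ) → List (List ℤ)
  | [] => []
  | f :: l => ah (sm (128 ^ (l.length + 1)) f) (ml2 a w [] (sh2 a w l))

theorem ev_sh2 (a w : ℤ) (l : List (List ℤ)) {s x t : ℝ} (hx : a + w * s = 128 * x) :
    ev2 (sh2 a w l) s t = 128 ^ l.length * ev2 l x t := by
  induction l with
  | nil => simp [sh2, ev2]
  | cons f l ih =>
    simp only [sh2, ev_ah, ev_ml2, ih, ev2, List.length_cons, ev_sm, ev]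
    rw [hx]
    push_cast
    ring

/-- a polynomial of degree at most four in both variables -/
def P5 (l : List (List ℤ)) : Prop := ∀ f ∈ l, f.length = 5

theorem ev_map (c w : ℤ) (l : List (List ℤ)) (h : P5 l) {s t y : ℝ} (hy : c + w * t = 128 * y) :
    ev2 (l.map (sh c w)) s t = 128 ^ 5 * ev2 l s y := by
  induction l with
  | nil => simp [ev2]
  | cons f l ih =>
    have h1 : f.length = 5 := h f (by simp)
    have h2 : P5 l := fun g hg => h g (by simp [hg])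
    simp only [List.map_cons, ev2, ih h2, ev_sh c w f hy, h1]
    ring

/-- the check on a box `[a, b] × [c, d]` (in units of `1 / 128`) -/
def bx (l : List (List ℤ)) (a b c d : ℤ) : Bool :=
  decide (0 ≤ lb2 (sh2 a (b - a) (l.map (sh c (d - c)))))

theorem bx_sound {l : List (List ℤ)} (h : P5 l) {a b c d : ℤ} (hab : a < b) (hcd : c < d)
    (hb : bx l a b c d = true) {x y : ℝ} (hx0 : a ≤ 128 * x) (hx1 : 128 * x ≤ b)
    (hy0 : c ≤ 128 * y) (hy1 : 128 * y ≤ d) : 0 ≤ ev2 l x y := by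
  have hb' : 0 ≤ lb2 (sh2 a (b - a) (l.map (sh c (d - c)))) := of_decide_eq_true hb
  have hab' : (0 : ℝ) < b - a := by
    have : (a : ℝ) < b := by exact_mod_cast hab
    linarith
  have hcd' : (0 : ℝ) < d - c := by
    have : (c : ℝ) < d := by exact_mod_cast hcd
    linarith
  set s : ℝ := (128 * x - a) / (b - a) with hs
  set t : ℝ := (128 * y - c) / (d - c) with ht
  have hs0 : 0 ≤ s := div_nonneg (by linarith) hab'.le
  have hs1 : s ≤ 1 := (div_le_one hab').2 (by linarith)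
  have ht0 : 0 ≤ t := div_nonneg (by linarith) hcd'.le
  have ht1 : t ≤ 1 := (div_le_one hcd').2 (by linarith)
  have e1 : (a : ℝ) + ((b - a : ℤ) : ℝ) * s = 128 * x := by
    rw [hs]; push_cast; field_simp; ring
  have e2 : (c : ℝ) + ((d - c : ℤ) : ℝ) * t = 128 * y := by
    rw [ht]; push_cast; field_simp; ring
  have h1 := lb2_le (sh2 a (b - a) (l.map (sh c (d - c)))) hs0 hs1 ht0 ht1
  rw [ev_sh2 a (b - a) _ e1, ev_map c (d - c) l h e2] at h1
  have h2 : (0 : ℝ) ≤ (lb2 (sh2 a (b - a) (l.map (sh c (d - c)))) : ℝ) := by exact_mod_cast hb'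
  have h3 : (0 : ℝ) ≤ 128 ^ (l.map (sh c (d - c))).length * (128 ^ 5 * ev2 l x y) := h2.trans h1
  have h4 : (0 : ℝ) < 128 ^ (l.map (sh c (d - c))).length * 128 ^ 5 := by positivity
  rw [← mul_assoc] at h3
  exact nonneg_of_mul_nonneg_right h3 h4

/-! ### the polynomials -/

/-- coefficient `256 (900 + 12 m²)` -/
def al (m : ℤ) : ℤ := 256 * (900 + 12 * m ^ 2)

/-- coefficient `720 m - 66 m²` -/
def be (m : ℤ) : ℤ := 720 * m - 66 * m ^ 2

/-- constant coefficient of `K B` -/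
def c0 (l m : ℤ) : ℤ := al m + 2 * be m * l ^ 2

/-- coefficient of `r` -/
def c1 (l m : ℤ) : ℤ := -(64 * be m * l)

/-- coefficient of `r²` -/
def c2 (l m : ℤ) : ℤ := -al m + be m * (2 * l ^ 2 + 256)

/-- coefficient of `p²` -/
def cp (l m : ℤ) : ℤ := -(be m * (16 - 2 * l) ^ 2)

/-- the polynomial `100 K² F`, `K = 230400` -/
def cf (l m : ℤ) : List (List ℤ) :=
  [[303 * 230400 ^ 2 - 400 * 230400 * c0 l m + 100 * c0 l m ^ 2,
    -(400 * 230400 * c1 l m) + 200 * c0 l m * c1 l m,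
    -(219 * 230400 ^ 2) - 400 * 230400 * c2 l m + 100 * (c1 l m ^ 2 + 2 * c0 l m * c2 l m),
    200 * c1 l m * c2 l m,
    126 * 230400 ^ 2 + 100 * c2 l m ^ 2],
   [42 * 230400 ^ 2, 0, 0, 0, 0],
   [-(252 * 230400 ^ 2) - 400 * 230400 * cp l m + 200 * cp l m * c0 l m,
    200 * cp l m * c1 l m, 200 * cp l m * c2 l m, 0, 0],
   [0, 0, 0, 0, 0],
   [100 * cp l m ^ 2, 0, 0, 0, 0]]

theorem cf_P5 (l m : ℤ) : P5 (cf l m) := by
  intro f hf
  simp only [cf, List.mem_cons, List.not_mem_nil, or_false] at hf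
  rcases hf with rfl | rfl | rfl | rfl | rfl <;> rfl

/-- the upper bound for `K B` -/
noncomputable def kb (l m : ℤ) (p r : ℝ) : ℝ := c0 l m + c1 l m * r + c2 l m * r ^ 2 + cp l m * p ^ 2

theorem ev_cf (l m : ℤ) (p r : ℝ) : ev2 (cf l m) p r =
    230400 ^ 2 * (198 * (1 - r ^ 2) - (1 - r ^ 2) * (105 + 126 * r ^ 2) +
      2 * ((1 - p) * (105 + 126 * p))) - 400 * 230400 * kb l m p r + 100 * kb l m p r ^ 2 := by
  simp only [cf, ev2, ev, kb]
  push_cast
  ring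

/-! ### the tree -/

/-- box trees -/
inductive T where
  | f (l m : ℕ) : T
  | o : T
  | s (t u : T) : T

/-- the check of a leaf -/
def lf (l m a b c d : ℤ) : Bool :=
  decide (0 ≤ be m) && decide (a < b) && decide (c < d) && decide (0 ≤ a) && decide (0 ≤ c) &&
  decide (16384 * c0 l m + 128 * c1 l m * c + max 0 (c2 l m) * d ^ 2 + cp l m * a ^ 2 ≤
    3 * 230400 * 16384) && bx (cf l m) a b c d

/-- the check of a tree; the boolean gives the direction -/
def ck : T → Bool → ℤ → ℤ → ℤ → ℤ → Bool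
  | T.f l m, _, a, b, c, d => lf l m a b c d
  | T.o, _, a, _, c, d => decide (d ^ 2 < 2 * a ^ 2 - 16384 ∧ 0 ≤ a ∧ 0 ≤ d) ||
      decide (120 ≤ a ∧ 104 ≤ c)
  | T.s t u, true, a, b, c, d => ck t false a ((a + b) / 2) c d && ck u false ((a + b) / 2) b c d
  | T.s t u, false, a, b, c, d => ck t true a b c ((c + d) / 2) && ck u true a b ((c + d) / 2) d

/-- the property of the points outside the corner -/
def Gd (p r : ℝ) : Prop := ∃ l m : ℕ, 0 ≤ be m ∧ kb l m p r ≤ 3 * 230400 ∧ 0 ≤ ev2 (cf l m) p r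

theorem lf_sound {l m : ℕ} {a b c d : ℤ} (h : lf l m a b c d = true) {p r : ℝ}
    (hx0 : a ≤ 128 * p) (hx1 : 128 * p ≤ b) (hy0 : c ≤ 128 * r) (hy1 : 128 * r ≤ d) : Gd p r := by
  simp only [lf, Bool.and_eq_true, decide_eq_true_eq] at h
  obtain ⟨⟨⟨⟨⟨⟨h1, h2⟩, h3⟩, h4⟩, h5⟩, h6⟩, h7⟩ := h
  refine ⟨l, m, h1, ?_, bx_sound (cf_P5 l m) h2 h3 h7 hx0 hx1 hy0 hy1⟩
  have h6' : (16384 : ℝ) * c0 l m + 128 * c1 l m * c + max 0 (c2 l m : ℝ) * d ^ 2 + cp l m * a ^ 2 ≤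
    3 * 230400 * 16384 := by exact_mod_cast h6
  have h4' : (0 : ℝ) ≤ a := by exact_mod_cast h4
  have h5' : (0 : ℝ) ≤ c := by exact_mod_cast h5
  have hc1 : (c1 l m : ℝ) ≤ 0 := by
    have : c1 l m ≤ 0 := by
      unfold c1
      have : 0 ≤ be m * (l : ℤ) := mul_nonneg h1 (by positivity)
      nlinarith
    exact_mod_cast this
  have hcp : (cp l m : ℝ) ≤ 0 := by
    have : cp l m ≤ 0 := by
      unfold cp
      have : 0 ≤ be m * (16 - 2 * (l : ℤ)) ^ 2 := mul_nonneg h1 (sq_nonneg _)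
      linarith
    exact_mod_cast this
  have e1 : (c1 l m : ℝ) * (128 * r) ≤ c1 l m * c := mul_le_mul_of_nonpos_left hy0 hc1
  have e2 : (cp l m : ℝ) * (128 * p) ^ 2 ≤ cp l m * a ^ 2 :=
    mul_le_mul_of_nonpos_left (pow_le_pow_left₀ h4' hx0 2) hcp
  have e3 : (c2 l m : ℝ) * (128 * r) ^ 2 ≤ max 0 (c2 l m : ℝ) * d ^ 2 := by
    have hr : (0 : ℝ) ≤ 128 * r := h5'.trans hy0
    calc (c2 l m : ℝ) * (128 * r) ^ 2 ≤ max 0 (c2 l m : ℝ) * (128 * r) ^ 2 :=
          mul_le_mul_of_nonneg_right (le_max_right _ _) (sq_nonneg _)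
      _ ≤ max 0 (c2 l m : ℝ) * d ^ 2 :=
          mul_le_mul_of_nonneg_left (pow_le_pow_left₀ hr hy1 2) (le_max_left _ _)
  unfold kb
  nlinarith

theorem ck_sound (t : T) : ∀ (v : Bool) (a b c d : ℤ), ck t v a b c d = true → ∀ p r : ℝ,
    a ≤ 128 * p → 128 * p ≤ b → c ≤ 128 * r → 128 * r ≤ d → 0 ≤ r → 2 * p ^ 2 - 1 ≤ r ^ 2 →
    Gd p r ∨ (15 / 16 ≤ p ∧ 13 / 16 ≤ r) := by
  induction t with
  | f l m =>
    intro v a b c d h p r h1 h2 h3 h4 _ _
    exact Or.inl (lf_sound h h1 h2 h3 h4)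
  | o =>
    intro v a b c d h p r h1 h2 h3 h4 hr h5
    simp only [ck, Bool.or_eq_true, decide_eq_true_eq] at h
    rcases h with ⟨h, ha, hd⟩ | ⟨ha, hc⟩
    · exfalso
      have h' : (d : ℝ) ^ 2 < 2 * a ^ 2 - 16384 := by exact_mod_cast h
      have ha' : (0 : ℝ) ≤ a := by exact_mod_cast ha
      have e1 : (a : ℝ) ^ 2 ≤ (128 * p) ^ 2 := pow_le_pow_left₀ ha' h1 2
      have e2 : (128 * r) ^ 2 ≤ (d : ℝ) ^ 2 := pow_le_pow_left₀ (by linarith) h4 2
      nlinarith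
    · right
      have ha' : (120 : ℝ) ≤ a := by exact_mod_cast ha
      have hc' : (104 : ℝ) ≤ c := by exact_mod_cast hc
      constructor <;> linarith
  | s t u iht ihu =>
    intro v a b c d h p r h1 h2 h3 h4 hr h5
    cases v with
    | true =>
      simp only [ck, Bool.and_eq_true] at h
      rcases le_total (128 * p) (((a + b) / 2 : ℤ) : ℝ) with h6 | h6
      · exact iht _ _ _ _ _ h.1 p r h1 h6 h3 h4 hr h5
      · exact ihu _ _ _ _ _ h.2 p r h6 h2 h3 h4 hr h5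
    | false =>
      simp only [ck, Bool.and_eq_true] at h
      rcases le_total (128 * r) (((c + d) / 2 : ℤ) : ℝ) with h6 | h6
      · exact iht _ _ _ _ _ h.1 p r h1 h2 h3 h6 hr h5
      · exact ihu _ _ _ _ _ h.2 p r h1 h2 h6 h4 hr h5

/-- the data -/
def tree : T :=
  (T.s (T.s (T.s (T.s (T.s (T.f 2 0) (T.s (T.f 0 1) (T.f 2 1))) (T.f 5 2)) (T.s (T.s (T.s (T.s 
  (T.f 0 1) (T.f 0 2)) (T.s (T.s (T.f 1 2) (T.f 2 2)) (T.s (T.f 1 2) (T.f 2 2)))) (T.s (T.f 0 
  3) (T.f 1 2))) (T.s (T.f 3 2) (T.s (T.s (T.f 2 2) (T.s (T.f 2 3) (T.f 3 3))) (T.f 4 3))))) 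
  (T.f 8 3)) (T.s (T.s (T.s (T.f 0 4) (T.s (T.s (T.s (T.f 2 3) (T.f 1 3)) (T.f 3 3)) (T.s (T.f 
  0 4) (T.s (T.f 2 3) (T.f 0 4))))) (T.f 0 4)) (T.s (T.s (T.s (T.f 4 3) (T.s (T.f 3 3) (T.f 4 
  4))) (T.f 8 4)) (T.s (T.s (T.s (T.s (T.s (T.f 0 4) (T.s (T.f 2 4) (T.f 0 4))) (T.f 0 4)) (T.s 
  (T.s (T.f 3 4) (T.f 5 4)) (T.s (T.f 1 4) (T.s (T.f 4 4) (T.s (T.f 0 4) (T.s (T.f 2 4) (T.f 0 
  4))))))) (T.f 0 4)) (T.s (T.s (T.s (T.f 7 4) (T.f 4 4)) (T.f 8 4)) (T.s (T.s (T.s (T.s (T.s 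
  (T.f 1 4) (T.s (T.f 4 4) (T.s (T.f 0 4) (T.s (T.f 2 4) (T.f 0 4))))) (T.f 0 4)) (T.f 4 4)) 
  (T.f 0 4)) (T.s (T.s (T.s (T.f 8 4) (T.f 5 4)) (T.f 8 4)) T.o))))))) 

set_option maxRecDepth 100000 in
theorem tree_ok : ck tree true 0 128 0 128 = true := by decide +kernel

theorem gd_of {p r : ℝ} (hp0 : 0 ≤ p) (hp1 : p ≤ 1) (hr0 : 0 ≤ r) (hr1 : r ≤ 1)
    (h3 : 2 * p ^ 2 - 1 ≤ r ^ 2) : Gd p r ∨ (15 / 16 ≤ p ∧ 13 / 16 ≤ r) :=
  ck_sound tree true 0 128 0 128 tree_ok p r (by push_cast; linarith) (by push_cast; linarith)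
    (by push_cast; linarith) (by push_cast; linarith) hr0 h3

end Pool.Agent.Helper73.SP
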